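import Mathlib

/-! Restriction operators on `L¹` and the splitting property. -/

open MeasureTheory Set
open scoped ENNReal

namespace Pool.Agent.R228.SC

/-- Lebesgue measure on the unit interval. -/
noncomputable abbrev mu : Measure ℝ := volume.restrict (Icc (0:ℝ) 1)

/-- the Banach space `L¹[0,1]`. -/
abbrev X0 : Type := Lp ℝ 1 mu

/-- restriction of an `L¹` function to a measurable set (as a function) -/
noncomputable def resFun (E : Set ℝ) (hE : MeasurableSet E) (f : X0) : X0 :=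
  MemLp.toLp (E.indicator f) ((Lp.memLp f).indicator hE)

theorem resFun_ae (E : Set ℝ) (hE : MeasurableSet E) (f : X0) :
    resFun E hE f =ᵐ[mu] E.indicator f := by
  unfold resFun
  exact MemLp.coeFn_toLp _

theorem norm_resFun (E : Set ℝ) (hE : MeasurableSet E) (f : X0) :
    ‖resFun E hE f‖ = (∫⁻ x in E, ‖f x‖ₑ ∂mu).toReal := by
  unfold resFun
  rw [Lp.norm_toLp]
  rw [eLpNorm_indicator_eq_eLpNorm_restrict hE, eLpNorm_one_eq_lintegral_enorm]

/-- restriction of an `L¹` function to a measurable set -/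
noncomputable def res (E : Set ℝ) (hE : MeasurableSet E) : X0 →ₗ[ℝ] X0 where
  toFun f := resFun E hE f
  map_add' f g := by
    apply Lp.ext
    have h5 := Lp.coeFn_add (resFun E hE f) (resFun E hE g)
    filter_upwards [resFun_ae E hE (f + g), resFun_ae E hE f, resFun_ae E hE g,
      Lp.coeFn_add f g, h5]
      with x h1 h2 h3 h4 h5
    rw [h1, h5, Pi.add_apply, h2, h3]
    by_cases hx : x ∈ E
    · rw [indicator_of_mem hx, indicator_of_mem hx, indicator_of_mem hx, h4, Pi.add_apply]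
    · rw [indicator_of_notMem hx, indicator_of_notMem hx, indicator_of_notMem hx, add_zero]
  map_smul' c f := by
    apply Lp.ext
    have h5 := Lp.coeFn_smul c (resFun E hE f)
    filter_upwards [resFun_ae E hE (c • f), resFun_ae E hE f, Lp.coeFn_smul c f, h5]
      with x h1 h2 h4 h5
    rw [RingHom.id_apply, h1, h5, Pi.smul_apply, h2]
    by_cases hx : x ∈ E
    · rw [indicator_of_mem hx, indicator_of_mem hx, h4, Pi.smul_apply]
    · rw [indicator_of_notMem hx, indicator_of_notMem hx, smul_zero]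

theorem res_ae (E : Set ℝ) (hE : MeasurableSet E) (f : X0) :
    res E hE f =ᵐ[mu] E.indicator f := resFun_ae E hE f

theorem norm_res (E : Set ℝ) (hE : MeasurableSet E) (f : X0) :
    ‖res E hE f‖ = (∫⁻ x in E, ‖f x‖ₑ ∂mu).toReal := norm_resFun E hE f

theorem lint_ne_top (f : X0) : (∫⁻ x, ‖f x‖ₑ ∂mu) ≠ ∞ := by
  have h := (Lp.memLp f).eLpNorm_ne_top
  rwa [eLpNorm_one_eq_lintegral_enorm] at h

theorem norm_eq (f : X0) : ‖f‖ = (∫⁻ x, ‖f x‖ₑ ∂mu).toReal := by
  rw [Lp.norm_def, eLpNorm_one_eq_lintegral_enorm]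

theorem norm_split (E : Set ℝ) (hE : MeasurableSet E) (f : X0) :
    ‖f‖ = ‖res E hE f‖ + ‖res Eᶜ hE.compl f‖ := by
  rw [norm_res, norm_res, norm_eq, ← ENNReal.toReal_add, lintegral_add_compl _ hE]
  · exact ne_top_of_le_ne_top (lint_ne_top f) (setLIntegral_le_lintegral _ _)
  · exact ne_top_of_le_ne_top (lint_ne_top f) (setLIntegral_le_lintegral _ _)

theorem res_compl_res (E : Set ℝ) (hE : MeasurableSet E) (f : X0) :
    res Eᶜ hE.compl (res E hE f) = 0 := by
  apply Lp.ext
  filter_upwards [res_ae Eᶜ hE.compl (res E hE f), res_ae E hE f, Lp.coeFn_zero ℝ 1 mu]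
    with x h1 h2 h3
  rw [h3, h1]
  by_cases hx : x ∈ E
  · rw [indicator_of_notMem (by simpa using hx)]; rfl
  · rw [indicator_of_mem (by simpa using hx), h2, indicator_of_notMem hx]; rfl

/-- the cell number `i` of the partition of the line at scale `1/N` -/
def cell (N i : ℕ) : Set ℝ := {x | ⌊(N:ℝ) * x⌋₊ = i}

theorem cell_meas (N i : ℕ) : MeasurableSet (cell N i) := by
  have : cell N i = (fun x : ℝ => ⌊(N:ℝ) * x⌋₊) ⁻¹' {i} := rfl
  rw [this]
  exact (Nat.measurable_floor.comp (measurable_const.mul measurable_id)) (measurableSet_singleton i)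

theorem mu_cell (N i : ℕ) (hN : 0 < N) : mu (cell N i) ≤ ENNReal.ofReal (1 / (N:ℝ)) := by
  have hN' : (0:ℝ) < N := by exact_mod_cast hN
  have : cell N i ∩ Icc 0 1 ⊆ Icc ((i:ℝ) / N) ((i+1:ℝ) / N) := by
    rintro x ⟨hx, hx0, hx1⟩
    have hx' : ⌊(N:ℝ) * x⌋₊ = i := hx
    have h1 : (i:ℝ) ≤ N * x := by
      rw [← hx']; exact Nat.floor_le (by positivity)
    have h2 : (N:ℝ) * x < i + 1 := by
      rw [← hx']; exact Nat.lt_floor_add_one _
    constructor
    · rw [div_le_iff₀ hN']; linarith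
    · rw [le_div_iff₀ hN']; linarith
  rw [Measure.restrict_apply (cell_meas N i)]
  refine (measure_mono this).trans ?_
  rw [Real.volume_Icc]
  apply ENNReal.ofReal_le_ofReal
  rw [← sub_div]; simp

theorem sum_res (N : ℕ) (f : X0) :
    ∑ i ∈ Finset.range (N+1), res (cell N i) (cell_meas N i) f = f := by
  apply Lp.ext
  have h1 : ∀ᵐ x ∂mu, ∀ i : ℕ, (res (cell N i) (cell_meas N i) f) x
      = (cell N i).indicator f x := by
    rw [ae_all_iff]
    intro i
    exact res_ae _ (cell_meas N i) f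
  have h2 := Lp.coeFn_finsetSum (Finset.range (N+1))
    (fun i => res (cell N i) (cell_meas N i) f)
  have h3 : ∀ᵐ x ∂mu, x ∈ Icc (0:ℝ) 1 := ae_restrict_mem measurableSet_Icc
  filter_upwards [h1, h2, h3] with x h1 h2 h3
  rw [h2, Finset.sum_apply]
  simp_rw [h1]
  have hlt : ⌊(N:ℝ) * x⌋₊ ∈ Finset.range (N+1) := by
    rw [Finset.mem_range, Nat.lt_succ_iff]
    apply Nat.floor_le_of_le
    have : (0:ℝ) ≤ N := by positivity
    nlinarith [h3.1, h3.2]
  rw [Finset.sum_eq_single (⌊(N:ℝ) * x⌋₊)]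
  · rw [indicator_of_mem]; exact rfl
  · intro j _ hj
    rw [indicator_of_notMem]
    intro hx; exact hj (by have : ⌊(N:ℝ) * x⌋₊ = j := hx; exact this.symm)
  · intro h; exact absurd hlt h

theorem small (f : X0) (η : ℝ) (hη : 0 < η) :
    ∀ᶠ N : ℕ in Filter.atTop, ∀ i, ‖res (cell N i) (cell_meas N i) f‖ ≤ η := by
  obtain ⟨δ, hδ, h⟩ := exists_pos_setLIntegral_lt_of_measure_lt (lint_ne_top f)
    (ε := ENNReal.ofReal η) (by simpa using hη)
  obtain ⟨N0, hN0⟩ : ∃ N0 : ℕ, 0 < N0 ∧ ENNReal.ofReal (1 / (N0:ℝ)) < δ := by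
    have h1 : Filter.Tendsto (fun n : ℕ => ENNReal.ofReal (1 / (n:ℝ))) Filter.atTop (nhds 0) := by
      have := (ENNReal.tendsto_ofReal tendsto_one_div_atTop_nhds_zero_nat)
      simpa using this
    have h2 := (h1.eventually (gt_mem_nhds hδ)).and (Filter.eventually_gt_atTop 0)
    obtain ⟨n, hn1, hn2⟩ := h2.exists
    exact ⟨n, hn2, hn1⟩
  filter_upwards [Filter.eventually_ge_atTop N0] with N hN i
  have hNpos : 0 < N := lt_of_lt_of_le hN0.1 hN
  have h1 : mu (cell N i) < δ := by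
    refine (mu_cell N i hNpos).trans_lt (lt_of_le_of_lt ?_ hN0.2)
    apply ENNReal.ofReal_le_ofReal
    apply one_div_le_one_div_of_le
    · exact_mod_cast hN0.1
    · exact_mod_cast hN
  have h2 := h _ h1
  rw [norm_res]
  exact ENNReal.toReal_le_of_le_ofReal hη.le h2.le

theorem sum_norm_le (N : ℕ) (f : X0) :
    ∑ i ∈ Finset.range (N+1), ‖res (cell N i) (cell_meas N i) f‖ ≤ ‖f‖ := by
  simp_rw [norm_res]
  rw [norm_eq, ← ENNReal.toReal_sum]
  · apply ENNReal.toReal_mono (lint_ne_top f)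
    rw [← lintegral_biUnion_finset]
    · exact setLIntegral_le_lintegral _ _
    · intro i _ j _ hij
      rw [Function.onFun, Set.disjoint_left]
      intro x hx hx'
      exact hij (by
        have h1 : ⌊(N:ℝ) * x⌋₊ = i := hx
        have h2 : ⌊(N:ℝ) * x⌋₊ = j := hx'
        omega)
    · intro i _; exact cell_meas N i
  · intro i _
    exact ne_top_of_le_ne_top (lint_ne_top f) (setLIntegral_le_lintegral _ _)

instance : Nontrivial X0 := by
  have h1 : MemLp (fun _ : ℝ => (1:ℝ)) 1 mu := memLp_const 1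
  refine ⟨⟨h1.toLp, 0, ?_⟩⟩
  intro h
  have h2 : ‖h1.toLp‖ = 0 := by rw [h]; simp
  rw [Lp.norm_toLp, eLpNorm_one_eq_lintegral_enorm] at h2
  simp at h2

/-- a functional is almost normed by a unit vector supported on a set on which a given finite family
of functions is small -/
theorem local_unit (xs : X0 →L[ℝ] ℝ) (δ : ℝ) (hδ : 0 < δ) (F : Finset X0) (η : ℝ) (hη : 0 < η) :
    ∃ (E : Set ℝ) (hE : MeasurableSet E) (z : X0), ‖z‖ = 1 ∧ ‖xs‖ - δ ≤ xs z ∧
      res Eᶜ hE.compl z = 0 ∧ ∀ f ∈ F, ‖res E hE f‖ ≤ η := by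
  classical
  set c : ℝ := max (‖xs‖ - δ) 0 with hc
  have hc0 : 0 ≤ c := le_max_right _ _
  obtain ⟨f, hf0, hf⟩ : ∃ f : X0, f ≠ 0 ∧ c * ‖f‖ ≤ xs f := by
    by_contra hcon
    push Not at hcon
    have h1 : ∀ f : X0, ‖xs f‖ ≤ c * ‖f‖ := by
      intro f
      by_cases hf : f = 0
      · simp [hf]
      · rw [Real.norm_eq_abs, abs_le]
        have h1 := hcon f hf
        have h2 := hcon (-f) (by simpa using hf)
        rw [norm_neg, map_neg] at h2
        constructor <;> linarith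
    have h2 : ‖xs‖ ≤ c := xs.opNorm_le_bound hc0 h1
    obtain ⟨f, hf⟩ := exists_ne (0 : X0)
    rcases le_or_gt (‖xs‖ - δ) 0 with h3 | h3
    · have hc' : c = 0 := max_eq_right h3
      have h4 := hcon f hf
      have h5 := hcon (-f) (by simpa using hf)
      rw [hc', zero_mul] at h4 h5
      rw [map_neg] at h5
      linarith
    · have hc' : c = ‖xs‖ - δ := max_eq_left h3.le
      linarith
  have hsm : ∀ᶠ N : ℕ in Filter.atTop, ∀ g ∈ F, ∀ i, ‖res (cell N i) (cell_meas N i) g‖ ≤ η := by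
    rw [Filter.eventually_all_finset]
    intro g _
    exact small g η hη
  obtain ⟨N, hN⟩ := hsm.exists
  obtain ⟨i, hi0, hi⟩ : ∃ i, res (cell N i) (cell_meas N i) f ≠ 0 ∧
      c * ‖res (cell N i) (cell_meas N i) f‖ ≤ xs (res (cell N i) (cell_meas N i) f) := by
    by_contra hcon
    push Not at hcon
    have h1 : ∀ i ∈ Finset.range (N+1), xs (res (cell N i) (cell_meas N i) f) ≤
        c * ‖res (cell N i) (cell_meas N i) f‖ := by
      intro i _
      by_cases h0 : res (cell N i) (cell_meas N i) f = 0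
      · rw [h0]; simp
      · exact (hcon i h0).le
    obtain ⟨j, hj, hj0⟩ : ∃ j ∈ Finset.range (N+1), res (cell N j) (cell_meas N j) f ≠ 0 := by
      by_contra hcon2
      push Not at hcon2
      apply hf0
      rw [← sum_res N f]
      exact Finset.sum_eq_zero hcon2
    have h2 := Finset.sum_lt_sum h1 ⟨j, hj, hcon j hj0⟩
    rw [← map_sum, sum_res, ← Finset.mul_sum] at h2
    have h3 := mul_le_mul_of_nonneg_left (sum_norm_le N f) hc0
    linarith
  set y := res (cell N i) (cell_meas N i) f with hy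
  have hyn : 0 < ‖y‖ := norm_pos_iff.mpr hi0
  refine ⟨cell N i, cell_meas N i, ‖y‖⁻¹ • y, ?_, ?_, ?_, fun g hg => hN g hg i⟩
  · rw [norm_smul, norm_inv, norm_norm, inv_mul_cancel₀ hyn.ne']
  · rw [map_smul, smul_eq_mul]
    have h1 : c ≤ ‖y‖⁻¹ * xs y := by
      rw [le_inv_mul_iff₀ hyn]
      linarith
    exact (le_max_left _ _).trans h1
  · rw [map_smul, hy, res_compl_res, smul_zero]

end Pool.Agent.R228.SC
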